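import Pool.Agent.Helper68.VN.GoalsA
import Pool.Agent.Helper68.Ru.Siegel

/-!
# Packet PG-SIEB (project HC, theorem PG, MP_a41896_nt): the conditions can be solved

Adapted from `Pool/Agent/Helper55/SG2/SIE1T.lean`.
-/

set_option autoImplicit false

open MvPolynomial

namespace Pool.Agent.Helper64.VN

open WeierstrassCurve Height NumberField
open Pool.Agent.Helper29.BL Pool.Agent.Helper92.Ru Pool.Agent.Helper42.SG
open Pool.Agent.Helper77.SGC (N0 HOUS)
open Pool.Agent.Helper68.VN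

noncomputable section

/-- sums over the functions which agree with `α0` outside of `i0`. -/
lemma sum_blk1 {ι : Type} [Fintype ι] [DecidableEq ι] (A : ι → Type) [∀ i, Fintype (A i)]
    [∀ i, DecidableEq (A i)] (i0 : ι) (α0 : ∀ i, A i) {R : Type} [AddCommMonoid R]
    (F : (∀ i, A i) → R)
    [∀ α : (∀ i, A i), Decidable (∀ h : {h : ι // h ≠ i0}, α h.val = α0 h.val)] :
    (∑ α : ∀ i, A i, if (∀ h : {h : ι // h ≠ i0}, α h.val = α0 h.val) then F α else 0) =
      ∑ x : A i0, F (Function.update α0 i0 x) := by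
  rw [← Finset.sum_filter]
  refine Finset.sum_bij' (fun α _ => α i0) (fun y _ => Function.update α0 i0 y) ?_ ?_ ?_ ?_ ?_
  · intro α _
    simp
  · intro y _
    rw [Finset.mem_filter]
    refine ⟨Finset.mem_univ _, fun h => ?_⟩
    rw [Function.update_of_ne h.2]
  · intro α hα
    rw [Finset.mem_filter] at hα
    funext h
    by_cases h0 : h = i0
    · subst h0
      simp
    · rw [Function.update_of_ne h0]
      exact (hα.2 ⟨h, h0⟩).symm
  · intro y _
    simp
  · intro α hα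
    rw [Finset.mem_filter] at hα
    congr 1
    funext h
    by_cases h0 : h = i0
    · subst h0
      simp
    · rw [Function.update_of_ne h0]
      exact hα.2 ⟨h, h0⟩

lemma v_nat {K : Type} [Field K] (v : AbsoluteValue K ℝ) (n : ℕ) : v (n : K) ≤ n := by
  induction n with
  | zero => simp
  | succ n ih =>
    push_cast
    refine (v.add_le _ _).trans ?_
    rw [v.map_one]
    linarith

lemma card_box (σ : Type) [Fintype σ] [DecidableEq σ] (N : ℕ) :
    (box σ N).card = (N + 1) ^ Fintype.card σ := by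
  unfold box
  rw [Fintype.card_piFinset]
  simp

lemma N0_le (M e : ℕ) : N0 M e + 1 ≤ 4 ^ e * (2 * M + 2) := by
  unfold N0
  have : 1 ≤ 4 ^ e := Nat.one_le_pow _ _ (by norm_num)
  nlinarith

section entry

variable {K : Type} [Field K] {σ : Type} [Fintype σ] [DecidableEq σ]

/-- the denominator of the block with the exponent `e` -/
def den (K : Type) [Field K] (σ : Type) [Fintype σ] (D d M e : ℕ) : K :=
  (d : K) ^ (N0 M e + 1) * ((D : K) ^ (4 ^ e * (M + 1))) ^ Fintype.card σ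

lemma den_ne [CharZero K] (D d M e : ℕ) (hD : 0 < D) (hd : 0 < d) : den K σ D d M e ≠ 0 := by
  unfold den
  have h3 : (D : K) ≠ 0 := Nat.cast_ne_zero.2 hD.ne'
  have h4 : (d : K) ≠ 0 := Nat.cast_ne_zero.2 hd.ne'
  exact mul_ne_zero (pow_ne_zero _ h4) (pow_ne_zero _ (pow_ne_zero _ h3))

lemma den_gam (D d M e : ℕ) (S : σ → ℕ → Bool → Fin 2 → ℕ → ℕ → ℕ → ℕ → K) (r : (σ → ℕ) → K)
    (l : σ → Bool) (μ : σ → Fin 2) (g : σ → ℕ) (x : Ax σ M e) :
    den K σ D d M e * Gam S M e r l μ g x =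
      ∑ s ∈ box σ (N0 M e), ((d : K) ^ (N0 M e + 1) * r s) *
        ∏ i, ((D : K) ^ (4 ^ e * (M + 1)) *
          S i e (l i) (μ i) (s i) (g i) (x i).1.val (x i).2.val) := by
  unfold den Gam
  rw [Finset.mul_sum]
  refine Finset.sum_congr rfl fun s _ => ?_
  rw [Finset.prod_mul_distrib, Finset.prod_const, Finset.card_univ]
  ring

variable {W : σ → Affine K} {B : AbsoluteValue K ℝ → ℝ} {D M : ℕ}
  {S : σ → ℕ → Bool → Fin 2 → ℕ → ℕ → ℕ → ℕ → K}

lemma int_gam (hS : ArS W B D M S) (d e : ℕ) (r : (σ → ℕ) → K)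
    (hr : ∀ s, IsIntegral ℤ ((d : K) ^ (N0 M e + 1) * r s)) (l : σ → Bool) (μ : σ → Fin 2)
    (g : σ → ℕ) (x : Ax σ M e) : IsIntegral ℤ (den K σ D d M e * Gam S M e r l μ g x) := by
  rw [den_gam]
  refine IsIntegral.sum _ fun s _ => (hr s).mul ?_
  exact IsIntegral.prod _ fun i _ => hS.int i e (l i) (μ i) (s i) (g i) _ _

lemma bd_gam (hS : ArS W B D M S) (hB : ∀ v, 1 ≤ B v) (B' : AbsoluteValue K ℝ → ℝ)
    (hB' : ∀ v, 1 ≤ B' v) (d e : ℕ) (hD : 0 < D) (hd : 0 < d) (r : (σ → ℕ) → K)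
    (hr : ∀ v s, v (r s) ≤ B' v ^ (N0 M e + 1)) (l : σ → Bool) (μ : σ → Fin 2)
    (g : σ → ℕ) (x : Ax σ M e) (v : AbsoluteValue K ℝ) :
    v (den K σ D d M e * Gam S M e r l μ g x) ≤
      ((2 : ℝ) ^ Fintype.card σ * (d * B' v) * (D * B v)) ^
        (4 ^ e * ((2 * M + 2) * (Fintype.card σ + 1))) := by
  have hDr : (1 : ℝ) ≤ D := by exact_mod_cast hD
  have hdr : (1 : ℝ) ≤ d := by exact_mod_cast hd
  have hBv := hB v
  have hBv' := hB' v
  set m := Fintype.card σ with hm
  have h2 : (1 : ℝ) ≤ (2 : ℝ) ^ m := one_le_pow₀ (by norm_num)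
  have hdB : (1 : ℝ) ≤ d * B' v := one_le_mul_of_one_le_of_one_le hdr hBv'
  have hDB : (1 : ℝ) ≤ D * B v := one_le_mul_of_one_le_of_one_le hDr hBv
  rw [den_gam]
  have hterm : ∀ s ∈ box σ (N0 M e), v (((d : K) ^ (N0 M e + 1) * r s) *
        ∏ i, ((D : K) ^ (4 ^ e * (M + 1)) *
          S i e (l i) (μ i) (s i) (g i) (x i).1.val (x i).2.val)) ≤
      (d * B' v) ^ (N0 M e + 1) * ((D * B v) ^ (4 ^ e * (M + 1))) ^ m := by
    intro s _
    rw [v.map_mul, v.map_mul, v.map_pow, map_prod]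
    refine mul_le_mul ?_ ?_ (Finset.prod_nonneg fun _ _ => v.nonneg _) (by positivity)
    · rw [mul_pow]
      exact mul_le_mul (pow_le_pow_left₀ (v.nonneg _) (v_nat v _) _) (hr v s) (v.nonneg _)
        (by positivity)
    · rw [hm, ← Finset.card_univ, ← Finset.prod_const]
      refine Finset.prod_le_prod (fun _ _ => v.nonneg _) fun i _ => ?_
      rw [v.map_mul, v.map_pow, mul_pow]
      exact mul_le_mul (pow_le_pow_left₀ (v.nonneg _) (v_nat v _) _) (hS.bd _ _ _ _ _ _ _ _ v)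
        (v.nonneg _) (by positivity)
  refine (v.sum_le _ _).trans ((Finset.sum_le_card_nsmul _ _ _ hterm).trans ?_)
  rw [nsmul_eq_mul, card_box, ← hm]
  push_cast
  have hN := N0_le M e
  set k := 4 ^ e * ((2 * M + 2) * (m + 1)) with hk
  have hk1 : N0 M e + 1 ≤ k := by
    refine hN.trans ?_
    rw [hk]
    exact Nat.mul_le_mul_left _ (Nat.le_mul_of_pos_right _ (by omega))
  have hk2 : 4 ^ e * (M + 1) * m ≤ k := by
    rw [hk, mul_assoc]
    refine Nat.mul_le_mul_left _ ?_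
    exact Nat.mul_le_mul (by omega) (by omega)
  have h5 : ((N0 M e : ℝ) + 1) ^ m ≤ ((2 : ℝ) ^ m) ^ k := by
    rw [← pow_mul, mul_comm, pow_mul]
    refine pow_le_pow_left₀ (by positivity) ?_ _
    have h6 : ((N0 M e + 1 : ℕ) : ℝ) ≤ (2 : ℝ) ^ (N0 M e + 1) := by
      have := (Nat.lt_two_pow_self (n := N0 M e + 1)).le
      exact_mod_cast this
    push_cast at h6
    exact h6.trans (pow_le_pow_right₀ (by norm_num) hk1)
  have h7 : (d * B' v) ^ (N0 M e + 1) ≤ (d * B' v) ^ k := pow_le_pow_right₀ hdB hk1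
  have h8 : ((D * B v) ^ (4 ^ e * (M + 1))) ^ m ≤ (D * B v) ^ k := by
    rw [← pow_mul]
    exact pow_le_pow_right₀ hDB hk2
  have h9 : ((2 : ℝ) ^ m * (d * B' v) * (D * B v)) ^ k =
      ((2 : ℝ) ^ m) ^ k * ((d * B' v) ^ k * (D * B v) ^ k) := by
    rw [mul_pow, mul_pow ((2 : ℝ) ^ m), mul_assoc]
  rw [h9]
  exact mul_le_mul h5 (mul_le_mul h7 h8 (by positivity) (by positivity)) (by positivity)
    (by positivity)

/-- the entry of the block `j`. -/
def ent (D d M e : ℕ) (S : σ → ℕ → Bool → Fin 2 → ℕ → ℕ → ℕ → ℕ → K) {δ : ℕ}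
    (r : (σ → ℕ) → K) (l : σ → Bool) (μ : σ → Fin 2) (ν : (σ → ℕ) → K) (x : Ax σ M e)
    (β : σ → Fin δ) : K :=
  ∑ g ∈ box σ (2 * M), (den K σ D d M e * Gam S M e r l μ g x) *
    ν (fun i => g i + (β i).val)

open Classical in
/-- the Siegel matrix over `K`. -/
def entK (D d M : ℕ) (S : σ → ℕ → Bool → Fin 2 → ℕ → ℕ → ℕ → ℕ → K) {n δ k0 : ℕ} {e : Fin n → ℕ}
    {T : Fin n → Type} {gr : ∀ j, T j → ℕ} (r : ∀ j, T j → (σ → ℕ) → K) {U : Type}
    (ν : U → (σ → ℕ) → K) (w : RowsB σ n M k0 e T gr U) (u : Ix σ n M δ e) : K :=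
  if (∀ h : {h : Fin n // h ≠ w.1}, u.1 h.val = w.2.1 h) then
    ent D d M (e w.1) S (r w.1 w.2.2.2.2.1.val) w.2.2.1 w.2.2.2.1 (ν w.2.2.2.2.2) (u.1 w.1) u.2
  else 0

end entry

lemma sq_ge {n : ℕ} (e : Fin n → ℕ) (j : Fin n) : 4 ^ e j ≤ sqB e :=
  Finset.single_le_sum (f := fun j => 4 ^ e j) (fun _ _ => Nat.zero_le _) (Finset.mem_univ j)

theorem t_SIEB (h1 : CARDB) (h2 : HOUS) : Pool.Agent.Helper68.VN.SIEB := by
  intro K _ _ σ _ _ W B B' D d c hB hB' hD hd J f Df n M δ k0 p S0 hn hδ hp hcount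
  classical
  set m := Fintype.card σ with hm
  obtain ⟨c1, hc1, hSi⟩ := Pool.Agent.Helper68.Ru.siegel K
  have hDr : (1 : ℝ) ≤ (D : ℝ) := by exact_mod_cast hD
  have hdr : (1 : ℝ) ≤ (d : ℝ) := by exact_mod_cast hd
  obtain ⟨b0, hb0, hH⟩ := h2 K
    (fun v => (2 : ℝ) ^ Fintype.card σ * (d * B' v) * (D * B v)) (fun v =>
      one_le_mul_of_one_le_of_one_le (one_le_mul_of_one_le_of_one_le
        (one_le_pow₀ (by norm_num)) (one_le_mul_of_one_le_of_one_le hdr (hB' v)))
        (one_le_mul_of_one_le_of_one_le hDr (hB v)))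
  set κ : ℕ := (2 * M + 2) * (m + 1) with hκ
  set G : ℝ := ((2 * M + 1 : ℕ) : ℝ) ^ m with hG
  have hG1 : 1 ≤ G := one_le_pow₀ (by push_cast; linarith [Nat.cast_nonneg (α := ℝ) M])
  set Q : ℝ := c1 * c1 * (((M : ℝ) + 1) ^ (n * m) * (δ : ℝ) ^ m) * G with hQ
  have hδr : (1 : ℝ) ≤ δ := by exact_mod_cast hδ
  have hM1 : (1 : ℝ) ≤ (M : ℝ) + 1 := by linarith [Nat.cast_nonneg (α := ℝ) M]
  have hQ1 : 1 ≤ Q := one_le_mul_of_one_le_of_one_le
    (one_le_mul_of_one_le_of_one_le (one_le_mul_of_one_le_of_one_le hc1 hc1)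
      (one_le_mul_of_one_le_of_one_le (one_le_pow₀ hM1) (one_le_pow₀ hδr))) hG1
  have hlQ := Real.log_nonneg hQ1
  have hlb := Real.log_nonneg hb0
  refine ⟨Real.log Q + n * m + κ * Real.log b0 + 1, by positivity, ?_⟩
  intro e S T _ gr E r U _ ν x0 H hS hcen hU hH0 hred
  have hsq : 1 ≤ sqB e :=
    (Nat.one_le_pow _ _ (by norm_num)).trans (sq_ge e (⟨0, hn⟩ : Fin n))
  have hsqr : (1 : ℝ) ≤ (sqB e : ℝ) := by exact_mod_cast hsq
  -- integrality
  have hint : ∀ (w : RowsB σ n M k0 e T gr U) (u : Ix σ n M δ e),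
      IsIntegral ℤ (entK D d M S r ν w u) := by
    intro w u
    unfold entK
    split_ifs
    · unfold ent
      refine IsIntegral.sum _ fun g _ => IsIntegral.mul ?_ (hred.int _ _)
      exact int_gam hS d (e w.1) _ (fun s => (hcen w.1).int _ s) _ _ _ _
    · exact isIntegral_zero
  -- the matrix
  set a : Matrix (RowsB σ n M k0 e T gr U) (Ix σ n M δ e) (𝓞 K) :=
    fun w u => ⟨entK D d M S r ν w u, hint w u⟩ with ha
  have hacoe : ∀ w u, ((a w u : 𝓞 K) : K) = entK D d M S r ν w u := fun w u => rfl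
  have hA1 : (1 : ℝ) ≤ G * b0 ^ (κ * sqB e) * Real.exp H :=
    one_le_mul_of_one_le_of_one_le (one_le_mul_of_one_le_of_one_le hG1 (one_le_pow₀ hb0))
      (Real.one_le_exp hH0)
  have hhouse : ∀ w u, house ((a w u : 𝓞 K) : K) ≤ G * b0 ^ (κ * sqB e) * Real.exp H := by
    intro w u
    rw [hacoe]
    unfold entK
    split_ifs
    · unfold ent
      refine (house_sum_le_sum_house _ _).trans ?_
      have hterm : ∀ g ∈ box σ (2 * M), house ((den K σ D d M (e w.1) *
          Gam S M (e w.1) (r w.1 w.2.2.2.2.1.val) w.2.2.1 w.2.2.2.1 g (u.1 w.1)) *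
          ν w.2.2.2.2.2 (fun i => g i + (u.2 i).val)) ≤ b0 ^ (κ * sqB e) * Real.exp H := by
        intro g _
        refine (house_mul_le _ _).trans (mul_le_mul ?_ (hred.hs _ _) (house_nonneg _)
          (by positivity))
        refine (hH _ (4 ^ e w.1 * ((2 * M + 2) * (Fintype.card σ + 1))) fun v =>
          bd_gam hS hB B' hB' d (e w.1) hD hd _ (fun v s => (hcen w.1).bd v _ s) _ _ _ _ v).trans
          ?_
        refine pow_le_pow_right₀ hb0 ?_
        rw [mul_comm, hκ, hm]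
        exact Nat.mul_le_mul_left _ (sq_ge e w.1)
      refine (Finset.sum_le_card_nsmul _ _ _ hterm).trans ?_
      rw [nsmul_eq_mul, card_box, ← hm, hG]
      push_cast
      exact le_of_eq (by ring)
    · exact (Pool.Agent.Helper68.Ru.house_zero' K).trans (by linarith)
  have hne : Nonempty (Ix σ n M δ e) :=
    ⟨fun h => fun _ => (⟨0, by positivity⟩, ⟨0, by omega⟩), fun _ => ⟨0, by omega⟩⟩
  have hcd := h1 σ n M δ k0 p c S0 e T gr U hp (fun j => by
    have h3 := (hcen j).bad (k0 * 4 ^ e j)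
    exact h3) hU hcount
  rw [Nat.card_eq_fintype_card, Nat.card_eq_fintype_card] at hcd
  obtain ⟨ξ, hξ0, hξ, hξb⟩ := hSi (RowsB σ n M k0 e T gr U) (Ix σ n M δ e) a
    (G * b0 ^ (κ * sqB e) * Real.exp H) hA1 hcd (Fintype.card_pos_iff.2 hne) hhouse
  refine ⟨fun α => ((ξ α : 𝓞 K) : K), ?_, fun α => RingOfIntegers.isIntegral_coe _, ?_, ?_⟩
  · intro h
    apply hξ0
    funext α
    have h3 := congrFun h α
    exact RingOfIntegers.coe_eq_zero_iff.1 h3
  · intro α
    refine (hξb α).trans ?_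
    -- the number of unknowns
    have hcard : (Fintype.card (Ix σ n M δ e) : ℝ) ≤
        Real.exp (n * m * sqB e) * (((M : ℝ) + 1) ^ (n * m) * (δ : ℝ) ^ m) := by
      have h3 : Fintype.card (Ix σ n M δ e) =
          (∏ h : Fin n, (4 ^ e h * (M + 1)) ^ m) * δ ^ m := by
        rw [Fintype.card_prod, Fintype.card_pi, Fintype.card_fun, Fintype.card_fin]
        congr 1
        refine Finset.prod_congr rfl fun h _ => ?_
        rw [Fintype.card_fun, Fintype.card_prod, Fintype.card_fin, Fintype.card_fin]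
      rw [h3]
      push_cast
      simp only [mul_pow]
      rw [Finset.prod_mul_distrib, Finset.prod_const, Finset.card_univ, Fintype.card_fin,
        ← pow_mul, mul_comm m n]
      have h4 : ∏ h : Fin n, ((4 : ℝ) ^ e h) ^ m ≤
          ∏ _h : Fin n, (Real.exp (sqB e)) ^ m := by
        refine Finset.prod_le_prod (fun _ _ => by positivity) fun h _ => ?_
        refine pow_le_pow_left₀ (by positivity) ?_ _
        have h6 : (4 : ℝ) ^ e h ≤ (sqB e : ℝ) := by exact_mod_cast sq_ge e h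
        have h7 := Real.add_one_le_exp (sqB e : ℝ)
        linarith
      rw [Finset.prod_const, Finset.card_univ, Fintype.card_fin, ← pow_mul, ← Real.exp_nat_mul]
        at h4
      have h8 : (((m * n : ℕ) : ℝ) * (sqB e : ℝ)) = (n : ℝ) * m * sqB e := by
        push_cast; ring
      rw [h8] at h4
      rw [mul_assoc]
      exact mul_le_mul_of_nonneg_right h4 (by positivity)
    have hb : b0 ^ (κ * sqB e) = Real.exp (κ * Real.log b0 * sqB e) := by
      rw [← Real.exp_log (show (0 : ℝ) < b0 by linarith), ← Real.exp_nat_mul, Real.exp_log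
        (show (0 : ℝ) < b0 by linarith)]
      congr 1
      push_cast
      ring
    have hQe : Q ≤ Real.exp (Real.log Q * sqB e) := by
      calc Q = Real.exp (Real.log Q * 1) := by
            rw [mul_one, Real.exp_log (by linarith)]
        _ ≤ Real.exp (Real.log Q * sqB e) :=
            Real.exp_le_exp.2 (mul_le_mul_of_nonneg_left hsqr hlQ)
    calc c1 * (c1 * (Fintype.card (Ix σ n M δ e) : ℝ) * (G * b0 ^ (κ * sqB e) * Real.exp H))
        ≤ c1 * (c1 * (Real.exp (n * m * sqB e) * (((M : ℝ) + 1) ^ (n * m) * (δ : ℝ) ^ m)) *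
            (G * b0 ^ (κ * sqB e) * Real.exp H)) := by
          have : 0 ≤ c1 := by linarith
          have : 0 ≤ G := by linarith
          gcongr
      _ = Q * (Real.exp (n * m * sqB e) * b0 ^ (κ * sqB e) * Real.exp H) := by
          rw [hQ]
          ring
      _ ≤ Real.exp (Real.log Q * sqB e) *
            (Real.exp (n * m * sqB e) * b0 ^ (κ * sqB e) * Real.exp H) :=
          mul_le_mul_of_nonneg_right hQe (by positivity)
      _ = Real.exp ((Real.log Q + n * m + κ * Real.log b0) * sqB e + H) := by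
          rw [hb, ← Real.exp_add, ← Real.exp_add, ← Real.exp_add]
          congr 1
          ring
      _ ≤ Real.exp ((Real.log Q + n * m + κ * Real.log b0 + 1) * (sqB e + H)) := by
          refine Real.exp_le_exp.2 ?_
          have h9 : 0 ≤ Real.log Q + n * m + κ * Real.log b0 := by positivity
          nlinarith [mul_nonneg h9 hH0]
  · -- the conditions
    intro j α0 l μ t hbad u
    set w : RowsB σ n M k0 e T gr U :=
      ⟨j, (fun j' => α0 j'.val), l, μ, ⟨t, hbad⟩, u⟩ with hw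
    have hrow := congrFun hξ w
    have hK := congrArg (algebraMap (𝓞 K) K) hrow
    rw [Matrix.mulVec, dotProduct, map_sum] at hK
    have hK2 : ∑ y : Ix σ n M δ e, (if (∀ h : {h : Fin n // h ≠ j}, y.1 h.val = α0 h.val) then
        ent D d M (e j) S (r j t) l μ (ν u) (y.1 j) y.2 * ((ξ y : 𝓞 K) : K) else 0) = 0 := by
      refine Eq.trans (Finset.sum_congr rfl fun y _ => ?_) (hK.trans (map_zero _))
      rw [map_mul]
      show _ = entK D d M S r ν w y * ((ξ y : 𝓞 K) : K)
      unfold entK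
      by_cases h3 : ∀ h : {h : Fin n // h ≠ j}, y.1 h.val = α0 h.val
      · rw [if_pos h3, if_pos h3]
      · rw [if_neg h3, if_neg h3, zero_mul]
    rw [Fintype.sum_prod_type] at hK2
    have hK3 : ∑ α : ∀ h, Ax σ M (e h), (if (∀ h : {h : Fin n // h ≠ j}, α h.val = α0 h.val) then
        ∑ β : σ → Fin δ, ent D d M (e j) S (r j t) l μ (ν u) (α j) β *
          ((ξ (α, β) : 𝓞 K) : K) else 0) = 0 := by
      refine Eq.trans (Finset.sum_congr rfl fun α _ => ?_) hK2
      by_cases h3 : ∀ h : {h : Fin n // h ≠ j}, α h.val = α0 h.val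
      · rw [if_pos h3]
        refine Finset.sum_congr rfl fun β _ => ?_
        exact (if_pos h3).symm
      · rw [if_neg h3]
        symm
        refine Finset.sum_eq_zero fun β _ => ?_
        exact if_neg h3
    have hK4 := sum_blk1 (fun h => Ax σ M (e h)) j α0 (fun α =>
      ∑ β : σ → Fin δ, ent D d M (e j) S (r j t) l μ (ν u) (α j) β *
          ((ξ (α, β) : 𝓞 K) : K))
    have hK5 := hK4.symm.trans hK3
    have hE : den K σ D d M (e j) ≠ 0 := den_ne D d M (e j) hD hd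
    refine (mul_eq_zero.1 (Eq.trans ?_ hK5)).resolve_left hE
    rw [Finset.mul_sum]
    refine Finset.sum_congr rfl fun x _ => ?_
    rw [Finset.mul_sum]
    refine Finset.sum_congr rfl fun β _ => ?_
    rw [Function.update_self]
    unfold ent
    rw [Finset.mul_sum, Finset.mul_sum, Finset.sum_mul]
    refine Finset.sum_congr rfl fun g _ => ?_
    ring

end

end Pool.Agent.Helper64.VN
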